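import Pool.Agent.T6.H2.CL.Prime

set_option autoImplicit false

/-!
# Clusters of prime offsets from squares, within Euler's totient (helper2)

Let `n_1, ..., n_K ≤ X ^ a` be any positive integers with `2 c(n_i) X ≤ φ(n_i)`, where `c(n)` is the product of the primes
`≤ 2 K + 1` which do not divide `n`. Then there are many isolated clusters of `m` primes `q` between `X / 2` and `2 X`, of
bounded diameter, such that for ALL these primes `q` ALL the `2 K` numbers `n_i ^ 2 + c(n_i) q` in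
`(n_i ^ 2, n_i ^ 2 + φ(n_i)]` and `n_i ^ 2 - c(n_i) q` in `[n_i ^ 2 - φ(n_i), n_i ^ 2)` are products of a bounded number of
large primes.
-/

namespace Pool.Agent.Results.MP_36c81c_nt.ClusterOffsets

open Finset Filter

/-- `|v| > 1`, and `|v|` is a product of at most `r` primes, all of them larger than `y` -/
def AlmostPrime (r : ℕ) (y : ℝ) (v : ℤ) : Prop :=
  1 < |v| ∧ v.natAbs.primeFactorsList.length ≤ r ∧ ∀ p : ℕ, p.Prime → (p : ℤ) ∣ v → y < p

/-- the product of the primes `≤ 2 K + 1` which do not divide `n` -/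
def slope (K n : ℕ) : ℕ := ∏ q ∈ (range (2 * K + 2)).filter (fun q => q.Prime ∧ ¬ q ∣ n), q

variable {K : ℕ}

/-- the numbers `x`, `n_i ^ 2 + c(n_i) x`, `n_i ^ 2 - c(n_i) x` -/
def vals (n : Fin K → ℕ) (x : ℤ) : Set ℤ :=
  {v | v = x ∨ ∃ i, v = (n i : ℤ) ^ 2 + slope K (n i) * x ∨ v = (n i : ℤ) ^ 2 - slope K (n i) * x}

/-- `p` starts a cluster: it is the first of at least `m` primes in `[p, p + C]`; there are no other primes at distance at
most `w` of `p`; for ALL primes `q` in `[p, p + C]` and all `i` the numbers `n_i ^ 2 ± c(n_i) q` lie at distance at most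
`φ(n_i)` of `n_i ^ 2`, and they are products of at most `T` primes `> y₀`; and every integer `z` without prime factors
`≤ y`, at distance at most `w` of one of the numbers `p`, `n_i ^ 2 ± c(n_i) p`, is such a product, too, and is one of the
numbers `x`, `n_i ^ 2 ± c(n_i) x` with an integer `x` at distance at most `C` of `p` -/
def Cluster (n : Fin K → ℕ) (C m T : ℕ) (y₀ w y : ℝ) (p : ℕ) : Prop :=
  p.Prime ∧ m ≤ ((Icc p (p + C)).filter Nat.Prime).card ∧
    (∀ q : ℕ, q.Prime → |(q : ℝ) - p| ≤ w → p ≤ q ∧ q ≤ p + C) ∧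
    (∀ q : ℕ, q.Prime → p ≤ q → q ≤ p + C →
      (∀ i, (n i : ℤ) ^ 2 + slope K (n i) * q ∈ Set.Ioc ((n i : ℤ) ^ 2) ((n i : ℤ) ^ 2 + (n i).totient) ∧
        (n i : ℤ) ^ 2 - slope K (n i) * q ∈ Set.Ico ((n i : ℤ) ^ 2 - (n i).totient) ((n i : ℤ) ^ 2)) ∧
      ∀ v ∈ vals n q, AlmostPrime T y₀ v) ∧
    ∀ v ∈ vals n p, ∀ z : ℤ, |(z : ℝ) - v| ≤ w → (∀ q : ℕ, q.Prime → (q : ℝ) ≤ y → ¬ (q : ℤ) ∣ z) →
      AlmostPrime T y₀ z ∧ ∃ x : ℤ, |x - p| ≤ C ∧ z ∈ vals n x

open Classical in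
/-- the `p` in `(X / 2, 2 X]` which lie in a progression with `s` terms in `(X / 2, 2 X]`, of difference `≤ d`, whose terms
start clusters and have the colour of `p` -/
noncomputable def InProg (n : Fin K → ℕ) (C m T : ℕ) (y₀ w y : ℝ) {r : ℕ} (χ : ℕ → Fin r) (s : ℕ) (d : ℝ) (X : ℕ) :
    Finset ℕ :=
  (Ioc (X / 2) (2 * X)).filter (fun p => ∃ x b : ℕ, 1 ≤ b ∧ (b : ℝ) ≤ d ∧ (∃ i < s, p = x + i * b) ∧
    ∀ i < s, x + i * b ∈ Ioc (X / 2) (2 * X) ∧ Cluster n C m T y₀ w y (x + i * b) ∧ χ (x + i * b) = χ p)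

section

open Pool.Agent.X32.Uni Pool.Agent.T6.H2.PT Pool.Agent.T6.H2.CL

/-- the slopes and the constant terms -/
def sl (n : Fin K → ℕ) : Fin (K + K + 1) → ℤ :=
  Fin.cons 1 (Fin.append (fun i => (slope K (n i) : ℤ)) (fun i => -(slope K (n i) : ℤ)))

def co (n : Fin K → ℕ) : Fin (K + K + 1) → ℤ :=
  Fin.cons 0 (Fin.append (fun i => (n i : ℤ) ^ 2) (fun i => (n i : ℤ) ^ 2))

theorem idx_cases (P : Fin (K + K + 1) → Prop) (h0 : P 0)
    (h2 : ∀ l : Fin K, P (Fin.castAdd K l).succ) (h3 : ∀ l : Fin K, P (Fin.natAdd K l).succ)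
    (l : Fin (K + K + 1)) : P l := by
  refine Fin.cases h0 (fun l => ?_) l
  exact Fin.addCases h2 h3 l

theorem sl0 (n : Fin K → ℕ) : sl n 0 = 1 := rfl

theorem sl2 (n : Fin K → ℕ) (l : Fin K) : sl n (Fin.castAdd K l).succ = slope K (n l) := by
  unfold sl
  rw [Fin.cons_succ, Fin.append_left]

theorem sl3 (n : Fin K → ℕ) (l : Fin K) : sl n (Fin.natAdd K l).succ = -slope K (n l) := by
  unfold sl
  rw [Fin.cons_succ, Fin.append_right]

theorem co0 (n : Fin K → ℕ) : co n 0 = 0 := rfl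

theorem co2 (n : Fin K → ℕ) (l : Fin K) : co n (Fin.castAdd K l).succ = (n l : ℤ) ^ 2 := by
  unfold co
  rw [Fin.cons_succ, Fin.append_left]

theorem co3 (n : Fin K → ℕ) (l : Fin K) : co n (Fin.natAdd K l).succ = (n l : ℤ) ^ 2 := by
  unfold co
  rw [Fin.cons_succ, Fin.append_right]

theorem vals_iff (n : Fin K → ℕ) (p : ℤ) (v : ℤ) : v ∈ vals n p ↔ ∃ l, v = sl n l * p + co n l := by
  unfold vals
  rw [Set.mem_ofPred_eq]
  constructor
  · rintro (h | ⟨l, h | h⟩)
    · exact ⟨0, by rw [h, sl0, co0]; ring⟩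
    · exact ⟨(Fin.castAdd K l).succ, by rw [h, sl2, co2]; ring⟩
    · exact ⟨(Fin.natAdd K l).succ, by rw [h, sl3, co3]; ring⟩
  · rintro ⟨l, h⟩
    revert h
    refine idx_cases (fun l => v = sl n l * (p : ℤ) + co n l → _) (fun h => ?_) (fun l h => ?_) (fun l h => ?_) l
    · exact Or.inl (by rw [h, sl0, co0]; ring)
    · exact Or.inr ⟨l, Or.inl (by rw [h, sl2, co2]; ring)⟩
    · exact Or.inr ⟨l, Or.inr (by rw [h, sl3, co3]; ring)⟩

theorem slope_pos (K n : ℕ) : 0 < slope K n := by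
  unfold slope
  apply Finset.prod_pos
  intro q hq
  exact (mem_filter.1 hq).2.1.pos

theorem slope_le (K n : ℕ) : slope K n ≤ ∏ q ∈ (range (2 * K + 2)).filter Nat.Prime, q := by
  unfold slope
  apply Finset.prod_le_prod_of_subset_of_one_le'
  · intro q hq
    rw [mem_filter] at hq ⊢
    exact ⟨hq.1, hq.2.1⟩
  · intro q hq _
    exact (Nat.Prime.one_lt (mem_filter.1 hq).2).le

theorem dvd_slope {K n q : ℕ} (hq : q.Prime) (h : q ∣ slope K n) : q < 2 * K + 2 ∧ ¬ q ∣ n := by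
  unfold slope at h
  obtain ⟨q', hq', hd⟩ := (Nat.Prime.prime hq).exists_mem_finset_dvd h
  rw [mem_filter, mem_range] at hq'
  have : q = q' := (Nat.prime_dvd_prime_iff_eq hq hq'.2.1).1 hd
  rw [this]
  exact ⟨hq'.1, hq'.2.2⟩

theorem slope_dvd {K n q : ℕ} (hq : q.Prime) (h : q < 2 * K + 2) (hn : ¬ q ∣ n) : q ∣ slope K n := by
  unfold slope
  exact dvd_prod_of_mem _ (mem_filter.2 ⟨mem_range.2 h, hq, hn⟩)

theorem dvd_of_eq {q x y : ℤ} (h : q ∣ x) (e : x = y) : q ∣ y := e ▸ h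

/-- the local condition -/
theorem adm (n : Fin K → ℕ) (q : ℕ) (hq : q.Prime) : ∃ x : ℤ, ∀ l, ¬ (q : ℤ) ∣ sl n l * x + co n l := by
  have h1 : ¬ (q : ℤ) ∣ 1 := fun h => hq.one_lt.ne' (Nat.dvd_one.1 (by exact_mod_cast h))
  rcases Nat.lt_or_ge (2 * K + 1) q with hlt | hge
  · apply Pool.Agent.T6.H2.PR.adm_big _ _ q hq _ (by omega)
    have h2 : ∀ l, ¬ (q : ℤ) ∣ (slope K (n l) : ℤ) := by
      intro l h
      have := (dvd_slope hq (Int.natCast_dvd_natCast.1 h)).1
      omega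
    refine idx_cases _ h1 (fun l => ?_) (fun l => ?_)
    · rw [sl2]; exact h2 l
    · rw [sl3, dvd_neg]; exact h2 l
  · have key : ∀ l, ¬ ((q : ℤ) ∣ (n l : ℤ) ^ 2 ∧ (q : ℤ) ∣ (slope K (n l) : ℤ)) ∧
        ((q : ℤ) ∣ (n l : ℤ) ^ 2 ∨ (q : ℤ) ∣ (slope K (n l) : ℤ)) := by
      intro l
      have e : (q : ℤ) ∣ (n l : ℤ) ^ 2 ↔ q ∣ n l := by
        constructor
        · intro h
          exact Int.natCast_dvd_natCast.1 ((Nat.prime_iff_prime_int.1 hq).dvd_of_dvd_pow h)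
        · intro h
          exact dvd_pow (Int.natCast_dvd_natCast.2 h) (by norm_num)
      rw [e, Int.natCast_dvd_natCast]
      constructor
      · rintro ⟨h2, h3⟩
        exact (dvd_slope hq h3).2 h2
      · by_cases h2 : q ∣ n l
        · exact Or.inl h2
        · exact Or.inr (slope_dvd hq (by omega) h2)
    refine ⟨1, idx_cases _ ?_ (fun l => ?_) (fun l => ?_)⟩
    · rw [sl0, co0]
      simpa using h1
    · rw [sl2, co2]
      intro h
      rcases (key l).2 with h2 | h2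
      · exact (key l).1 ⟨h2, dvd_of_eq (dvd_sub h h2) (by ring)⟩
      · exact (key l).1 ⟨dvd_of_eq (dvd_sub h h2) (by ring), h2⟩
    · rw [sl3, co3]
      intro h
      rcases (key l).2 with h2 | h2
      · exact (key l).1 ⟨h2, dvd_of_eq (dvd_sub h2 h) (by ring)⟩
      · exact (key l).1 ⟨dvd_of_eq (dvd_add h h2) (by ring), h2⟩

/-- the values at the arguments up to `2 X` -/
theorem val_low {n : Fin K → ℕ} {X : ℕ} (hX : 2 ≤ X) (hn : ∀ i, 2 * slope K (n i) * X ≤ (n i).totient) (l : Fin (K + K + 1))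
    {x : ℤ} (hx0 : 0 ≤ x) (hx2 : x ≤ 2 * (X : ℤ)) : (l = 0) ∨ 3 * (X : ℤ) ≤ sl n l * x + co n l := by
  have key : ∀ i, (slope K (n i) : ℤ) * x ≤ (n i : ℤ) ∧ 3 * (X : ℤ) ≤ (n i : ℤ) ^ 2 - n i := by
    intro i
    have h1 : (2 * (slope K (n i) : ℤ) * X) ≤ (n i).totient := by exact_mod_cast hn i
    have h2 : ((n i).totient : ℤ) ≤ n i := by exact_mod_cast Nat.totient_le (n i)
    have h3 : (0 : ℤ) < slope K (n i) := by exact_mod_cast slope_pos K (n i)
    have h4 : (slope K (n i) : ℤ) * x ≤ slope K (n i) * (2 * X) := mul_le_mul_of_nonneg_left hx2 h3.le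
    have h5 : (2 : ℤ) ≤ X := by exact_mod_cast hX
    have h6 : (2 * X : ℤ) ≤ n i := by nlinarith
    refine ⟨by linarith, by nlinarith⟩
  revert l
  refine idx_cases _ (Or.inl rfl) (fun i => Or.inr ?_) (fun i => Or.inr ?_)
  · rw [sl2, co2]
    have h3 : (0 : ℤ) < slope K (n i) := by exact_mod_cast slope_pos K (n i)
    have h4 := mul_nonneg h3.le hx0
    have h5 : (0 : ℤ) ≤ n i := by positivity
    linarith [(key i).2]
  · rw [sl3, co3]
    linarith [(key i).1, (key i).2]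

open Classical in
/-- **Theorem.** Many isolated clusters of `m` primes `q` such that all `n_i ^ 2 ± c(n_i) q` are almost prime, for ANY
`n_1, ..., n_K`, within `φ(n_i)` of `n_i ^ 2`, in one-coloured progressions. -/
theorem result (K m : ℕ) : ∃ C D t : ℕ, 1 ≤ t ∧ ∃ c : ℝ, 0 < c ∧ ∀ β : ℝ, 0 < β → ∃ ε : ℝ, 0 < ε ∧
    ∀ a s r : ℕ, 1 ≤ s → ∃ d X₀ : ℕ, ∀ X : ℕ, X₀ ≤ X → ∀ n : Fin K → ℕ,
      (∀ i, 2 * slope K (n i) * X ≤ (n i).totient ∧ n i ≤ X ^ a) → ∀ χ : ℕ → Fin r,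
        c * X / Real.log X ^ D ≤ ((InProg n C m ((2 * a + 3) * t) ((X : ℝ) ^ (1 / (t : ℝ))) (ε * Real.log X)
          ((X : ℝ) ^ β) χ s (Real.log X ^ d) X).card : ℝ) := by
  obtain ⟨P, hP⟩ : ∃ P : ℕ, P = ∏ q ∈ (range (2 * K + 2)).filter Nat.Prime, q := ⟨_, rfl⟩
  have hP1 : 1 ≤ P := by
    rw [hP]
    exact Finset.prod_pos fun q hq => Nat.Prime.pos (mem_filter.1 hq).2
  obtain ⟨C, D, t, ht, c, hc, H⟩ := cluP (K + K + 1) m (by omega)
  refine ⟨C, D, t, ht, c, hc, fun β hβ => ?_⟩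
  obtain ⟨ε, hε, H⟩ := H β P hβ
  refine ⟨ε, hε, fun a s r hs => ?_⟩
  obtain ⟨d, X₁, H⟩ := H (2 * a) s r hs
  have hlogt : Tendsto (fun X : ℕ => Real.log (X : ℝ)) atTop atTop :=
    Real.tendsto_log_atTop.comp tendsto_natCast_atTop_atTop
  obtain ⟨X₂, h2⟩ := eventually_atTop.1 ((hlogt.eventually_ge_atTop ((C : ℝ) / ε)).and (log_small 1 (8 * ε)))
  refine ⟨d, X₁ + X₂ + 2 * C + 4, fun X hX n hn χ => ?_⟩
  obtain ⟨g1, g2⟩ := h2 X (by omega)
  rw [div_le_iff₀ hε] at g1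
  rw [pow_one] at g2
  have hX0 : (0 : ℝ) < X := by exact_mod_cast (by omega : 0 < X)
  have hX1 : (1 : ℤ) ≤ X := by exact_mod_cast (by omega : 1 ≤ X)
  have hC0 : (0 : ℝ) ≤ C := Nat.cast_nonneg _
  have hPz : ∀ l, (slope K (n l) : ℤ) ≤ P := by
    intro l
    have h1 := slope_le K (n l)
    rw [← hP] at h1
    exact_mod_cast h1
  have hsl0 : ∀ l, (0 : ℤ) < slope K (n l) := fun l => by exact_mod_cast slope_pos K (n l)
  have hsq : ∀ l, |(n l : ℤ) ^ 2| ≤ (X : ℤ) ^ (2 * a) := by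
    intro l
    have h1 : (n l : ℤ) ≤ (X : ℤ) ^ a := by exact_mod_cast (hn l).2
    rw [abs_of_nonneg (by positivity)]
    calc (n l : ℤ) ^ 2 ≤ ((X : ℤ) ^ a) ^ 2 := pow_le_pow_left₀ (by positivity) h1 2
      _ = (X : ℤ) ^ (2 * a) := by rw [← pow_mul, mul_comm]
  have hlow := fun (l : Fin (K + K + 1)) (x : ℤ) (h0 : 0 ≤ x) (h2 : x ≤ 2 * (X : ℤ)) =>
    val_low (n := n) (by omega : 2 ≤ X) (fun i => (hn i).1) l h0 h2
  obtain ⟨S, hS1, hS2⟩ := H X (by omega) (sl n) (co n)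
    { a0 := by
        refine idx_cases _ (by rw [sl0]; norm_num) (fun l => ?_) (fun l => ?_)
        · rw [sl2]; exact (hsl0 l).ne'
        · rw [sl3]; exact neg_ne_zero.2 (hsl0 l).ne'
      aE := by
        refine idx_cases _ (by rw [sl0, abs_one]; exact_mod_cast hP1) (fun l => ?_) (fun l => ?_)
        · rw [sl2, abs_of_pos (hsl0 l)]; exact hPz l
        · rw [sl3, abs_neg, abs_of_pos (hsl0 l)]; exact hPz l
      bX := by
        refine idx_cases _ (by rw [co0, abs_zero]; positivity) (fun l => ?_) (fun l => ?_)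
        · rw [co2]; exact hsq l
        · rw [co3]; exact hsq l
      adm := fun q hq => adm n q hq
      id := ⟨0, sl0 n, co0 n⟩ }
    (fun l => by
      by_cases hl : l = 0
      · left
        rw [hl]
        exact ⟨sl0 n, co0 n⟩
      · right
        intro x hx0 hx2
        rcases hlow l x hx0 hx2 with h | h
        · exact absurd h hl
        · exact h.trans (le_abs_self _)) χ
  refine hS1.trans ?_
  have hcard : S.card ≤ (InProg n C m ((2 * a + 3) * t) ((X : ℝ) ^ (1 / (t : ℝ))) (ε * Real.log X)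
          ((X : ℝ) ^ β) χ s (Real.log X ^ d) X).card := by
    apply card_le_card
    intro p hp
    obtain ⟨x, e, e1, e2, ⟨j0, hj0, hpj⟩, e4⟩ := hS2 p hp
    have hall : ∀ j < s, x + j * e ∈ Ioc (X / 2) (2 * X) ∧ Cluster n C m ((2 * a + 3) * t) ((X : ℝ) ^ (1 / (t : ℝ)))
        (ε * Real.log X) ((X : ℝ) ^ β) (x + j * e) ∧ χ (x + j * e) = χ p := by
      intro j hj
      obtain ⟨e5, e6, e7, e8⟩ := e4 j hj
      obtain ⟨p', hp'⟩ : ∃ p' : ℕ, p' = x + j * e := ⟨_, rfl⟩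
      rw [← hp'] at e5 e6 e7 e8 ⊢
      refine ⟨mem_Ioc.2 ⟨e6, by omega⟩, ?_, e8⟩
      obtain ⟨k1, k2, k3, k4, k5⟩ := e5
      refine ⟨k1, k2, k3, fun q hq hq1 hq2 => ⟨fun i => ?_, fun v hv => ?_⟩, fun v hv z hz1 hz2 => ?_⟩
      · have h1 : 2 * (slope K (n i) : ℤ) * X ≤ (n i).totient := by exact_mod_cast (hn i).1
        have hqX : (q : ℤ) ≤ 2 * X := by exact_mod_cast (by omega : q ≤ 2 * X)
        have h2 : (slope K (n i) : ℤ) * q ≤ slope K (n i) * (2 * X) := mul_le_mul_of_nonneg_left hqX (hsl0 i).le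
        have h3 : (0 : ℤ) < slope K (n i) * q := mul_pos (hsl0 i) (by exact_mod_cast hq.pos)
        rw [Set.mem_Ioc, Set.mem_Ico]
        refine ⟨⟨by linarith, by linarith⟩, ⟨by linarith, by linarith⟩⟩
      · obtain ⟨l, rfl⟩ := (vals_iff n q v).1 hv
        exact k4 q hq hq1 hq2 l
      · obtain ⟨l, rfl⟩ := (vals_iff n p' v).1 hv
        obtain ⟨l', x', f1, f2, f3⟩ := k5 l z hz1 hz2
        refine ⟨f3, x', f1, (vals_iff n x' z).2 ⟨l', ?_⟩⟩
        rcases f2 with f2 | f2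
        · exact f2
        · exfalso
          -- the values are positive
          have f1' := abs_le.1 f1
          have hCX : 8 * C ≤ X := by
            have : 8 * (C : ℝ) ≤ X := by linarith
            exact_mod_cast this
          have hp'z : (X : ℤ) < 2 * p' := by exact_mod_cast (by omega : X < 2 * p')
          have hp'z2 : (p' : ℤ) ≤ X + C := by exact_mod_cast e7
          have hCXz : 8 * (C : ℤ) ≤ X := by exact_mod_cast hCX
          have hx0 : 0 < x' := by linarith [f1'.1]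
          have hx2 : x' ≤ 2 * X := by linarith [f1'.2]
          have hpos : ∀ (l : Fin (K + K + 1)) (u : ℤ), 0 < u → u ≤ 2 * (X : ℤ) → u ≤ sl n l * u + co n l ∨
              3 * (X : ℤ) ≤ sl n l * u + co n l := by
            intro l u h0 h2
            rcases hlow l u h0.le h2 with h | h
            · left
              rw [h, sl0, co0]
              linarith
            · exact Or.inr h
          have hz0 : z < 0 := by
            rcases hpos l' x' hx0 hx2 with h | h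
            · linarith
            · linarith
          have hp2 : (p' : ℤ) ≤ 2 * X := by linarith
          have hv4 : (X : ℤ) < 4 * (sl n l * (p' : ℤ) + co n l) := by
            rcases hpos l p' (by linarith) hp2 with h | h
            · linarith
            · linarith
          have hv4r : (X : ℝ) < 4 * ((sl n l * (p' : ℤ) + co n l : ℤ) : ℝ) := by exact_mod_cast hv4
          have hz0r : (z : ℝ) < 0 := by exact_mod_cast hz0
          have := (abs_le.1 hz1).1
          linarith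
    unfold InProg
    rw [mem_filter]
    refine ⟨?_, x, e, e1, e2, ⟨j0, hj0, hpj⟩, hall⟩
    rw [hpj]
    exact (hall j0 hj0).1
  exact_mod_cast hcard

end

end Pool.Agent.Results.MP_36c81c_nt.ClusterOffsets
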