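import Pool.Agent.T6.H2.FR.Iso
import Pool.Agent.T6.H2.PR.Cls

set_option autoImplicit false

/-!
# Every even `m` is a sum of two common offsets from squares, within Euler's totient (helper96)

Let `n_1, ..., n_K ≤ m ^ a` be any positive integers with `c(n_i) m ≤ φ(n_i)`, where `c(n)` is the product of the primes
`≤ 4 K + 2` which do not divide `n`, and let `m` be even. Then `m = p + x` with a prime `p` and a product `x` of at most
two primes such that ALL the `4 K` numbers `n_i ^ 2 ± c(n_i) p`, `n_i ^ 2 ± c(n_i) x`, which lie at distance at most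
`φ(n_i)` of `n_i ^ 2`, are products of a bounded number of large primes, in many ways.
-/

namespace Pool.Agent.Results.MP_36c81c_nt.GoldbachOffsets

open Finset Filter
open Pool.Agent.X32.Uni Pool.Agent.T6.H2.PT Pool.Agent.T6.H2.FR

/-- `|v| > 1`, and `|v|` is a product of at most `r` primes, all of them larger than `y` -/
def AlmostPrime (r : ℕ) (y : ℝ) (v : ℤ) : Prop :=
  1 < |v| ∧ v.natAbs.primeFactorsList.length ≤ r ∧ ∀ p : ℕ, p.Prime → (p : ℤ) ∣ v → y < p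

/-- the product of the primes `≤ 4 K + 2` which do not divide `n` -/
def slope (K n : ℕ) : ℕ := ∏ q ∈ (range (4 * K + 3)).filter (fun q => q.Prime ∧ ¬ q ∣ n), q

variable {K : ℕ}

/-- the `2 K` numbers `n_i ^ 2 + c(n_i) x`, `n_i ^ 2 - c(n_i) x` -/
def near (n : Fin K → ℕ) (x : ℤ) : Set ℤ :=
  {v | ∃ i, v = (n i : ℤ) ^ 2 + slope K (n i) * x ∨ v = (n i : ℤ) ^ 2 - slope K (n i) * x}

/-- the `4 K + 2` numbers `x`, `m - x`, `n_i ^ 2 ± c(n_i) x`, `n_i ^ 2 ± c(n_i) (m - x)` -/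
def vals (n : Fin K → ℕ) (m x : ℤ) : Set ℤ := {v | v = x ∨ v = m - x ∨ v ∈ near n x ∨ v ∈ near n (m - x)}

/-- `x` is a common offset: for all `i` the numbers `n_i ^ 2 + c(n_i) x`, `n_i ^ 2 - c(n_i) x` lie in
`(n_i ^ 2, n_i ^ 2 + φ(n_i)]` and in `[n_i ^ 2 - φ(n_i), n_i ^ 2)`, and they are products of at most `T` primes `> y` -/
def Offset (n : Fin K → ℕ) (T : ℕ) (y : ℝ) (x : ℤ) : Prop :=
  (∀ i, (n i : ℤ) ^ 2 + slope K (n i) * x ∈ Set.Ioc ((n i : ℤ) ^ 2) ((n i : ℤ) ^ 2 + (n i).totient) ∧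
    (n i : ℤ) ^ 2 - slope K (n i) * x ∈ Set.Ico ((n i : ℤ) ^ 2 - (n i).totient) ((n i : ℤ) ^ 2)) ∧
  ∀ v ∈ near n x, AlmostPrime T y v

/-- `p` is a prime, `m - p` is a product of at most two primes `> m ^ (1/9)`, both are common offsets (with primes
`> m ^ (1/t)`), and every integer `z` at distance at most `w` of one of the `4 K + 2` numbers has a prime factor `≤ y`,
unless `z` or `-z` is one of these numbers -/
def Good (n : Fin K → ℕ) (t T m : ℕ) (w y : ℝ) (p : ℕ) : Prop :=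
  p.Prime ∧ p < m ∧ AlmostPrime 2 ((m : ℝ) ^ (1 / 9 : ℝ)) ((m : ℤ) - p) ∧
    Offset n T ((m : ℝ) ^ (1 / (t : ℝ))) p ∧ Offset n T ((m : ℝ) ^ (1 / (t : ℝ))) ((m : ℤ) - p) ∧
    ∀ v ∈ vals n m p, ∀ z : ℤ, |(z : ℝ) - v| ≤ w → (∀ v' ∈ vals n m p, z ≠ v' ∧ z ≠ -v') →
      ∃ q : ℕ, q.Prime ∧ (q : ℝ) ≤ y ∧ (q : ℤ) ∣ z

open Classical in
/-- the `p` in `(A, B]` which lie in a progression with `s` terms in `(A, B]`, of difference `≤ d`, whose terms are
good and have the colour of `p` -/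
noncomputable def InProg (n : Fin K → ℕ) (t T m : ℕ) (w y : ℝ) {r : ℕ} (χ : ℕ → Fin r) (s : ℕ) (d : ℝ)
    (A B : ℕ) : Finset ℕ :=
  (Ioc A B).filter (fun p => ∃ x b : ℕ, 1 ≤ b ∧ (b : ℝ) ≤ d ∧ (∃ i < s, p = x + i * b) ∧
    ∀ i < s, x + i * b ∈ Ioc A B ∧ Good n t T m w y (x + i * b) ∧ χ (x + i * b) = χ p)

/-- the slopes and the constant terms -/
def sl (n : Fin K → ℕ) : Fin (K + K + (K + K) + 1 + 1) → ℤ :=
  Fin.cons 1 (Fin.cons (-1) (Fin.append
    (Fin.append (fun i => (slope K (n i) : ℤ)) (fun i => -(slope K (n i) : ℤ)))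
    (Fin.append (fun i => -(slope K (n i) : ℤ)) (fun i => (slope K (n i) : ℤ)))))

def co (n : Fin K → ℕ) (m : ℤ) : Fin (K + K + (K + K) + 1 + 1) → ℤ :=
  Fin.cons 0 (Fin.cons m (Fin.append
    (Fin.append (fun i => (n i : ℤ) ^ 2) (fun i => (n i : ℤ) ^ 2))
    (Fin.append (fun i => (n i : ℤ) ^ 2 + slope K (n i) * m) (fun i => (n i : ℤ) ^ 2 - slope K (n i) * m))))

/-- the indices -/
abbrev i1 (l : Fin K) : Fin (K + K + (K + K) + 1 + 1) := (Fin.castAdd (K + K) (Fin.castAdd K l)).succ.succ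
abbrev i2 (l : Fin K) : Fin (K + K + (K + K) + 1 + 1) := (Fin.castAdd (K + K) (Fin.natAdd K l)).succ.succ
abbrev i3 (l : Fin K) : Fin (K + K + (K + K) + 1 + 1) := (Fin.natAdd (K + K) (Fin.castAdd K l)).succ.succ
abbrev i4 (l : Fin K) : Fin (K + K + (K + K) + 1 + 1) := (Fin.natAdd (K + K) (Fin.natAdd K l)).succ.succ

theorem idx_cases (P : Fin (K + K + (K + K) + 1 + 1) → Prop) (h0 : P 0) (h1 : P (Fin.succ 0))
    (h2 : ∀ l : Fin K, P (i1 l)) (h3 : ∀ l : Fin K, P (i2 l)) (h4 : ∀ l : Fin K, P (i3 l))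
    (h5 : ∀ l : Fin K, P (i4 l)) (l : Fin (K + K + (K + K) + 1 + 1)) : P l := by
  refine Fin.cases h0 (fun l => ?_) l
  refine Fin.cases h1 (fun l => ?_) l
  refine Fin.addCases (fun l => ?_) (fun l => ?_) l
  · exact Fin.addCases (motive := fun l => P (Fin.castAdd (K + K) l).succ.succ) h2 h3 l
  · exact Fin.addCases (motive := fun l => P (Fin.natAdd (K + K) l).succ.succ) h4 h5 l

theorem sl0 (n : Fin K → ℕ) : sl n 0 = 1 := rfl
theorem sl1 (n : Fin K → ℕ) : sl n (Fin.succ 0) = -1 := rfl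
theorem co0 (n : Fin K → ℕ) (m : ℤ) : co n m 0 = 0 := rfl
theorem co1 (n : Fin K → ℕ) (m : ℤ) : co n m (Fin.succ 0) = m := rfl

theorem sl2 (n : Fin K → ℕ) (l : Fin K) : sl n (i1 l) = slope K (n l) := by
  unfold sl i1
  rw [Fin.cons_succ, Fin.cons_succ, Fin.append_left, Fin.append_left]

theorem sl3 (n : Fin K → ℕ) (l : Fin K) : sl n (i2 l) = -slope K (n l) := by
  unfold sl i2
  rw [Fin.cons_succ, Fin.cons_succ, Fin.append_left, Fin.append_right]

theorem sl4 (n : Fin K → ℕ) (l : Fin K) : sl n (i3 l) = -slope K (n l) := by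
  unfold sl i3
  rw [Fin.cons_succ, Fin.cons_succ, Fin.append_right, Fin.append_left]

theorem sl5 (n : Fin K → ℕ) (l : Fin K) : sl n (i4 l) = slope K (n l) := by
  unfold sl i4
  rw [Fin.cons_succ, Fin.cons_succ, Fin.append_right, Fin.append_right]

theorem co2 (n : Fin K → ℕ) (m : ℤ) (l : Fin K) : co n m (i1 l) = (n l : ℤ) ^ 2 := by
  unfold co i1
  rw [Fin.cons_succ, Fin.cons_succ, Fin.append_left, Fin.append_left]

theorem co3 (n : Fin K → ℕ) (m : ℤ) (l : Fin K) : co n m (i2 l) = (n l : ℤ) ^ 2 := by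
  unfold co i2
  rw [Fin.cons_succ, Fin.cons_succ, Fin.append_left, Fin.append_right]

theorem co4 (n : Fin K → ℕ) (m : ℤ) (l : Fin K) : co n m (i3 l) = (n l : ℤ) ^ 2 + slope K (n l) * m := by
  unfold co i3
  rw [Fin.cons_succ, Fin.cons_succ, Fin.append_right, Fin.append_left]

theorem co5 (n : Fin K → ℕ) (m : ℤ) (l : Fin K) : co n m (i4 l) = (n l : ℤ) ^ 2 - slope K (n l) * m := by
  unfold co i4
  rw [Fin.cons_succ, Fin.cons_succ, Fin.append_right, Fin.append_right]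

theorem vals_iff (n : Fin K → ℕ) (m p v : ℤ) :
    v ∈ vals n m p ↔ ∃ l, v = sl n l * p + co n m l := by
  unfold vals near
  simp only [Set.mem_setOf_eq]
  constructor
  · rintro (h | h | ⟨l, h | h⟩ | ⟨l, h | h⟩)
    · exact ⟨0, by rw [h, sl0, co0]; ring⟩
    · exact ⟨Fin.succ 0, by rw [h, sl1, co1]; ring⟩
    · exact ⟨i1 l, by rw [h, sl2, co2]; ring⟩
    · exact ⟨i2 l, by rw [h, sl3, co3]; ring⟩
    · exact ⟨i3 l, by rw [h, sl4, co4]; ring⟩
    · exact ⟨i4 l, by rw [h, sl5, co5]; ring⟩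
  · rintro ⟨l, h⟩
    revert h
    refine idx_cases (fun l => v = sl n l * p + co n m l → _) (fun h => ?_) (fun h => ?_) (fun l h => ?_)
      (fun l h => ?_) (fun l h => ?_) (fun l h => ?_) l
    · exact Or.inl (by rw [h, sl0, co0]; ring)
    · exact Or.inr (Or.inl (by rw [h, sl1, co1]; ring))
    · exact Or.inr (Or.inr (Or.inl ⟨l, Or.inl (by rw [h, sl2, co2]; ring)⟩))
    · exact Or.inr (Or.inr (Or.inl ⟨l, Or.inr (by rw [h, sl3, co3]; ring)⟩))
    · exact Or.inr (Or.inr (Or.inr ⟨l, Or.inl (by rw [h, sl4, co4]; ring)⟩))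
    · exact Or.inr (Or.inr (Or.inr ⟨l, Or.inr (by rw [h, sl5, co5]; ring)⟩))

theorem slope_pos (K n : ℕ) : 0 < slope K n := by
  unfold slope
  apply Finset.prod_pos
  intro q hq
  exact (mem_filter.1 hq).2.1.pos

theorem slope_le (K n : ℕ) : slope K n ≤ ∏ q ∈ (range (4 * K + 3)).filter Nat.Prime, q := by
  unfold slope
  apply Finset.prod_le_prod_of_subset_of_one_le'
  · intro q hq
    rw [mem_filter] at hq ⊢
    exact ⟨hq.1, hq.2.1⟩
  · intro q hq _
    exact (Nat.Prime.one_lt (mem_filter.1 hq).2).le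

theorem dvd_slope {K n q : ℕ} (hq : q.Prime) (h : q ∣ slope K n) : q < 4 * K + 3 ∧ ¬ q ∣ n := by
  unfold slope at h
  obtain ⟨q', hq', hd⟩ := (Nat.Prime.prime hq).exists_mem_finset_dvd h
  rw [mem_filter, mem_range] at hq'
  have : q = q' := (Nat.prime_dvd_prime_iff_eq hq hq'.2.1).1 hd
  rw [this]
  exact ⟨hq'.1, hq'.2.2⟩

theorem slope_dvd {K n q : ℕ} (hq : q.Prime) (h : q < 4 * K + 3) (hn : ¬ q ∣ n) : q ∣ slope K n := by
  unfold slope
  exact dvd_prod_of_mem _ (mem_filter.2 ⟨mem_range.2 h, hq, hn⟩)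

theorem dvd_of_eq {q x y : ℤ} (h : q ∣ x) (e : x = y) : q ∣ y := e ▸ h

/-- the local condition for the numbers near `n ^ 2` -/
theorem not_dvd_near {q N : ℕ} (hq : q.Prime) (hge : q < 4 * K + 3) {y : ℤ} (hy : ¬ (q : ℤ) ∣ y) :
    ¬ (q : ℤ) ∣ (N : ℤ) ^ 2 + slope K N * y := by
  have e : (q : ℤ) ∣ (N : ℤ) ^ 2 ↔ q ∣ N := by
    constructor
    · intro h
      exact Int.natCast_dvd_natCast.1 ((Nat.prime_iff_prime_int.1 hq).dvd_of_dvd_pow h)
    · intro h
      exact dvd_pow (Int.natCast_dvd_natCast.2 h) (by norm_num)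
  intro h
  by_cases h2 : q ∣ N
  · have h3 : (q : ℤ) ∣ slope K N * y := dvd_of_eq (dvd_sub h (e.2 h2)) (by ring)
    rcases (Nat.prime_iff_prime_int.1 hq).dvd_or_dvd h3 with h4 | h4
    · exact (dvd_slope hq (Int.natCast_dvd_natCast.1 h4)).2 h2
    · exact hy h4
  · have h3 : (q : ℤ) ∣ slope K N := Int.natCast_dvd_natCast.2 (slope_dvd hq hge h2)
    have h4 : (q : ℤ) ∣ (N : ℤ) ^ 2 := dvd_of_eq (dvd_sub h (h3.mul_right y)) (by ring)
    exact h2 (e.1 h4)

/-- the local condition -/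
theorem adm (n : Fin K → ℕ) (m : ℤ) (hm : (2 : ℤ) ∣ m) (q : ℕ) (hq : q.Prime) :
    ∃ x : ℤ, ∀ l, ¬ (q : ℤ) ∣ sl n l * x + co n m l := by
  have h1 : ¬ (q : ℤ) ∣ 1 := fun h => hq.one_lt.ne' (Nat.dvd_one.1 (by exact_mod_cast h))
  rcases Nat.lt_or_ge (4 * K + 2) q with hlt | hge
  · apply Pool.Agent.T6.H2.PR.adm_big _ _ q hq _ (by omega)
    have h2 : ∀ l, ¬ (q : ℤ) ∣ (slope K (n l) : ℤ) := by
      intro l h
      have := (dvd_slope hq (Int.natCast_dvd_natCast.1 h)).1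
      omega
    refine idx_cases _ h1 ?_ (fun l => ?_) (fun l => ?_) (fun l => ?_) (fun l => ?_)
    · rw [sl1, dvd_neg]; exact h1
    · rw [sl2]; exact h2 l
    · rw [sl3, dvd_neg]; exact h2 l
    · rw [sl4, dvd_neg]; exact h2 l
    · rw [sl5]; exact h2 l
  · -- a residue `x` with `x`, `m - x` not divisible by `q`
    obtain ⟨x, hx1, hx2⟩ : ∃ x : ℤ, ¬ (q : ℤ) ∣ x ∧ ¬ (q : ℤ) ∣ m - x := by
      by_cases h2 : (q : ℤ) ∣ m - 1
      · refine ⟨-1, by rw [dvd_neg]; exact h1, fun h3 => ?_⟩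
        have h4 : (q : ℤ) ∣ 2 := dvd_of_eq (dvd_sub h3 h2) (by ring)
        have h5 : q ∣ 2 := by exact_mod_cast h4
        have h6 : q = 2 := (Nat.prime_dvd_prime_iff_eq hq Nat.prime_two).1 h5
        rw [h6] at h2
        have h7 : ((2 : ℕ) : ℤ) ∣ 1 := by
          have h8 : ((2 : ℕ) : ℤ) ∣ m := by exact_mod_cast hm
          exact dvd_of_eq (dvd_sub h8 h2) (by ring)
        norm_num at h7
      · exact ⟨1, h1, h2⟩
    have hy1 : ¬ (q : ℤ) ∣ -x := by rwa [dvd_neg]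
    have hy2 : ¬ (q : ℤ) ∣ -(m - x) := by rwa [dvd_neg]
    refine ⟨x, idx_cases _ ?_ ?_ (fun l => ?_) (fun l => ?_) (fun l => ?_) (fun l => ?_)⟩
    · rw [sl0, co0]
      intro h
      exact hx1 (dvd_of_eq h (by ring))
    · rw [sl1, co1]
      intro h
      exact hx2 (dvd_of_eq h (by ring))
    · rw [sl2, co2]
      intro h
      exact not_dvd_near (K := K) (N := n l) hq (by omega) hx1 (dvd_of_eq h (by ring))
    · rw [sl3, co3]
      intro h
      exact not_dvd_near (K := K) (N := n l) hq (by omega) hy1 (dvd_of_eq h (by ring))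
    · rw [sl4, co4]
      intro h
      exact not_dvd_near (K := K) (N := n l) hq (by omega) hx2 (dvd_of_eq h (by ring))
    · rw [sl5, co5]
      intro h
      exact not_dvd_near (K := K) (N := n l) hq (by omega) hy2 (dvd_of_eq h (by ring))

open Classical in
/-- **Every large even `m` is a sum of two common offsets within the totient.** -/
theorem result (K : ℕ) : ∃ t : ℕ, 1 ≤ t ∧ ∃ κ : ℝ, 0 < κ ∧ ∀ β : ℝ, 0 < β → ∃ ε : ℝ, 0 < ε ∧
    ∀ (a s r : ℕ) (θ : ℝ), 1 ≤ s → 0 < θ → ∃ c m₀ : ℕ, ∀ m : ℕ, m₀ ≤ m → Even m → ∀ n : Fin K → ℕ,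
      (∀ i, slope K (n i) * m ≤ (n i).totient ∧ n i ≤ m ^ a) →
      ∀ (χ : ℕ → Fin r) (A B : ℕ), B ≤ m → θ * m ≤ (B : ℝ) - A →
        κ * (((B : ℝ) - A) / Real.log m ^ (4 * K + 2)) ≤
          ((InProg n t ((2 * a + 5) * t) m (ε * Real.log m) ((m : ℝ) ^ β) χ s (Real.log m ^ c) A B).card : ℝ) := by
  obtain ⟨P, hP⟩ : ∃ P : ℕ, P = ∏ q ∈ (range (4 * K + 3)).filter Nat.Prime, q := ⟨_, rfl⟩
  have hP1 : 1 ≤ P := by
    rw [hP]
    exact Finset.prod_pos fun q hq => Nat.Prime.pos (mem_filter.1 hq).2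
  obtain ⟨t, ht, κ, hκ, HF⟩ := farI (K + K + (K + K) + 1 + 1) 1 (by omega)
  refine ⟨t, ht, κ ^ 2 / 2, by positivity, fun β hβ => ?_⟩
  obtain ⟨F, hF⟩ : ∃ F : ℕ, F = P := ⟨_, rfl⟩
  obtain ⟨ε, hε, HF⟩ := HF β F hβ
  refine ⟨ε, hε, fun a s r θ hs hθ => ?_⟩
  obtain ⟨c, X₀, HF⟩ := HF (2 * a + 3) s r θ (κ / 2) hs hθ (by positivity)
  refine ⟨c, X₀ + F + 3, fun X hX hev n hn χ A B hB hAB => ?_⟩
  have hX1 : (1 : ℤ) ≤ X := by exact_mod_cast (by omega : 1 ≤ X)
  have hX2 : (2 : ℤ) ≤ X := by exact_mod_cast (by omega : 2 ≤ X)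
  have hXr : (1 : ℝ) < X := by exact_mod_cast (by omega : 1 < X)
  have hlog : 0 < Real.log X := Real.log_pos hXr
  have hPz : ∀ l, (slope K (n l) : ℤ) ≤ F := by
    intro l
    have h1 := slope_le K (n l)
    rw [← hP] at h1
    exact_mod_cast (by omega : slope K (n l) ≤ F)
  have hsl0 : ∀ l, (0 : ℤ) < slope K (n l) := fun l => by exact_mod_cast slope_pos K (n l)
  have hF1 : (1 : ℤ) ≤ F := by exact_mod_cast (by omega : 1 ≤ F)
  have hFX : (F : ℤ) ≤ X := by exact_mod_cast (by omega : F ≤ X)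
  have hXp : (X : ℤ) ≤ (X : ℤ) ^ (2 * a + 3) := by
    calc (X : ℤ) = X ^ 1 := (pow_one _).symm
      _ ≤ _ := pow_le_pow_right₀ hX1 (by omega)
  have hn0 : ∀ l, (n l : ℤ) ^ 2 ≤ (X : ℤ) ^ (2 * a) := by
    intro l
    have h1 : (n l : ℤ) ≤ (X : ℤ) ^ a := by exact_mod_cast (hn l).2
    calc (n l : ℤ) ^ 2 ≤ ((X : ℤ) ^ a) ^ 2 := pow_le_pow_left₀ (by positivity) h1 2
      _ = (X : ℤ) ^ (2 * a) := by rw [← pow_mul, mul_comm]
  have hcX : ∀ l, (slope K (n l) : ℤ) * X ≤ (X : ℤ) ^ 2 := by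
    intro l
    have h1 := (hPz l).trans hFX
    nlinarith
  have hsum : (X : ℤ) ^ (2 * a) + (X : ℤ) ^ 2 ≤ (X : ℤ) ^ (2 * a + 3) := by
    have h1 : (1 : ℤ) ≤ (X : ℤ) ^ (2 * a) := one_le_pow₀ hX1
    have h2 : (X : ℤ) ^ (2 * a + 3) = (X : ℤ) ^ (2 * a) * (X ^ 2 * X) := by ring
    have h3 : (1 : ℤ) ≤ (X : ℤ) ^ 2 := one_le_pow₀ hX1
    have h4 : (X : ℤ) ^ (2 * a) * (X ^ 2 * 2) ≤ (X : ℤ) ^ (2 * a) * (X ^ 2 * X) := by gcongr
    have h5 : (X : ℤ) ^ (2 * a) * 1 ≤ (X : ℤ) ^ (2 * a) * X ^ 2 := by gcongr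
    have h6 : 1 * (X : ℤ) ^ 2 ≤ (X : ℤ) ^ (2 * a) * X ^ 2 := by gcongr
    rw [h2]
    linarith
  have hsq : ∀ l, |(n l : ℤ) ^ 2| ≤ (X : ℤ) ^ (2 * a + 3) := by
    intro l
    rw [abs_of_nonneg (by positivity)]
    have h1 := hn0 l
    have h2 : (0 : ℤ) ≤ (X : ℤ) ^ 2 := by positivity
    linarith
  have hX2a : (0 : ℤ) ≤ (X : ℤ) ^ (2 * a) := by positivity
  have hm2 : (2 : ℤ) ∣ (X : ℤ) := by exact_mod_cast hev.two_dvd
  have S : SysF (K + K + (K + K) + 1 + 1) 1 F (2 * a + 3) X (sl n) (co n X) 0 (Fin.succ 0) :=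
    { a0 := by
        refine idx_cases _ (by rw [sl0]; norm_num) (by rw [sl1]; norm_num) (fun l => ?_) (fun l => ?_) (fun l => ?_)
          (fun l => ?_)
        · rw [sl2]; exact (hsl0 l).ne'
        · rw [sl3]; exact neg_ne_zero.2 (hsl0 l).ne'
        · rw [sl4]; exact neg_ne_zero.2 (hsl0 l).ne'
        · rw [sl5]; exact (hsl0 l).ne'
      aE := by rw [sl0]; norm_num
      aE' := by rw [sl1]; norm_num
      aK := by
        refine idx_cases _ (by rw [sl0, abs_one]; exact hF1) (by rw [sl1, abs_neg, abs_one]; exact hF1) (fun l => ?_)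
          (fun l => ?_) (fun l => ?_) (fun l => ?_)
        · rw [sl2, abs_of_pos (hsl0 l)]; exact hPz l
        · rw [sl3, abs_neg, abs_of_pos (hsl0 l)]; exact hPz l
        · rw [sl4, abs_neg, abs_of_pos (hsl0 l)]; exact hPz l
        · rw [sl5, abs_of_pos (hsl0 l)]; exact hPz l
      bi := by
        rw [co0, abs_zero]
        positivity
      bj := by
        rw [co1, abs_of_nonneg (by linarith)]
        nlinarith
      bX := by
        refine idx_cases _ (by rw [co0, abs_zero]; positivity) (by rw [co1, abs_of_nonneg (by linarith)]; linarith)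
          (fun l => ?_) (fun l => ?_) (fun l => ?_) (fun l => ?_)
        · rw [co2]; exact hsq l
        · rw [co3]; exact hsq l
        · rw [co4, abs_le]
          have h1 := hn0 l
          have h2 := hcX l
          have h3 : (0 : ℤ) ≤ slope K (n l) * X := by positivity
          have h4 : (0 : ℤ) ≤ (n l : ℤ) ^ 2 := by positivity
          have h5 : (0 : ℤ) ≤ (X : ℤ) ^ (2 * a + 3) := by positivity
          constructor <;> linarith
        · rw [co5, abs_le]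
          have h1 := hn0 l
          have h2 := hcX l
          have h3 : (0 : ℤ) ≤ slope K (n l) * X := by positivity
          have h4 : (0 : ℤ) ≤ (n l : ℤ) ^ 2 := by positivity
          have h5 : (0 : ℤ) ≤ (X : ℤ) ^ (2 * a + 3) := by positivity
          have h6 : (0 : ℤ) ≤ (X : ℤ) ^ 2 := by positivity
          constructor <;> linarith
      adm := by
        intro q hq
        obtain ⟨x, hx⟩ := adm n (X : ℤ) hm2 q hq
        have hq0 : (0 : ℤ) < q := by exact_mod_cast hq.pos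
        obtain ⟨x', hx'⟩ := Int.eq_ofNat_of_zero_le (Int.emod_nonneg x hq0.ne')
        have hd : (q : ℤ) ∣ (x' : ℤ) - x := by
          have h1 := Int.emod_add_mul_ediv x q
          rw [hx'] at h1
          exact ⟨-(x / q), by linarith⟩
        exact ⟨x', fun l h => hx l (dvd_of_eq (dvd_sub h (hd.mul_left (sl n l))) (by ring))⟩
      ne := by
        rw [co1, co0]
        intro h
        have h1 : (X : ℤ) = 0 := congrArg Prod.snd h
        linarith
      ne' := by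
        rw [co1, co0]
        intro h
        have h1 : (X : ℤ) = -0 := congrArg Prod.snd h
        linarith }
  obtain ⟨hVlow, HF⟩ := HF X (by omega) _ _ _ _ S
  obtain ⟨hcount, hcov⟩ := HF A B hB hAB
  obtain ⟨Q, p1, p2, p3⟩ := hcov χ
  have hBA0 : 0 ≤ (B : ℝ) - A := le_trans (by positivity) hAB
  obtain ⟨V, hV⟩ : ∃ V : ℝ, V = VL (sl n) (co n (X : ℤ)) X := ⟨_, rfl⟩
  obtain ⟨GG, hGG⟩ : ∃ GG : Finset ℕ, GG = GoodFI (sl n) (co n (X : ℤ)) 0 (Fin.succ 0) t ((2 * a + 3 + 2) * t) X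
    (ε * Real.log X) ((X : ℝ) ^ β) A B := ⟨_, rfl⟩
  rw [← hV] at hVlow hcount p3
  rw [← hGG] at hcount p3
  have p1' : ∀ z ∈ Q, 1 ≤ z.2 ∧ (z.2 : ℝ) ≤ Real.log X ^ c ∧ ∀ m < s, z.1 + m * z.2 ∈ GG ∧
      χ (z.1 + m * z.2) = χ z.1 := by
    intro z hz
    rw [hGG]
    exact p1 z hz
  -- good arguments
  have hgood : ∀ p ∈ GG, p ∈ Ioc A B ∧ Good n t ((2 * a + 5) * t) X (ε * Real.log X) ((X : ℝ) ^ β) p := by
    intro p hp
    rw [hGG] at hp
    unfold GoodFI GoodF at hp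
    rw [mem_filter, mem_filter] at hp
    obtain ⟨⟨g1, g3, g4, g5⟩, g6⟩ := hp
    rw [sl0, co0, add_zero, one_mul, Int.natAbs_natCast] at g3
    have e0 : sl n (Fin.succ 0) * (p : ℤ) + co n (X : ℤ) (Fin.succ 0) = (X : ℤ) - p := by rw [sl1, co1]; ring
    rw [e0] at g4
    have hpX : (p : ℤ) ≤ X := by exact_mod_cast (mem_Ioc.1 g1).2.trans hB
    have hp1 : (1 : ℤ) ≤ p := by exact_mod_cast g3.pos
    have hpX' : (p : ℤ) < X := by
      rcases hpX.lt_or_eq with h | h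
      · exact h
      · exfalso
        have h1 := g4.1
        rw [h, sub_self, abs_zero] at h1
        norm_num at h1
    have hT : (2 * a + 3 + 2) * t = (2 * a + 5) * t := by ring
    have hoff : ∀ x : ℤ, 0 < x → x ≤ X → (∀ v ∈ near n x, v ∈ vals n (X : ℤ) (p : ℤ)) →
        Offset n ((2 * a + 5) * t) ((X : ℝ) ^ (1 / (t : ℝ))) x := by
      intro x hx0 hxX hsub
      refine ⟨fun i => ?_, fun v hv => ?_⟩
      · have h1 : (slope K (n i) : ℤ) * X ≤ (n i).totient := by exact_mod_cast (hn i).1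
        have h2 : (slope K (n i) : ℤ) * x ≤ slope K (n i) * X := mul_le_mul_of_nonneg_left hxX (hsl0 i).le
        have h3 : (0 : ℤ) < slope K (n i) * x := mul_pos (hsl0 i) hx0
        rw [Set.mem_Ioc, Set.mem_Ico]
        refine ⟨⟨by linarith, by linarith⟩, ⟨by linarith, by linarith⟩⟩
      · obtain ⟨l, rfl⟩ := (vals_iff n X p v).1 (hsub v hv)
        have := g5 l
        rw [hT] at this
        exact this
    refine ⟨g1, g3, by exact_mod_cast hpX', g4, hoff p (by linarith) hpX (fun v hv => Or.inr (Or.inr (Or.inl hv))),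
      hoff ((X : ℤ) - p) (by linarith) (by linarith) (fun v hv => Or.inr (Or.inr (Or.inr hv))),
      fun v hv z hz1 hz2 => ?_⟩
    obtain ⟨l, rfl⟩ := (vals_iff n X p v).1 hv
    exact g6 l z hz1 (fun l' => hz2 _ ((vals_iff n X p _).2 ⟨l', rfl⟩))
  -- the good arguments in the progressions
  have hsub : Q.biUnion (apSet s) ⊆ InProg n t ((2 * a + 5) * t) X (ε * Real.log X) ((X : ℝ) ^ β) χ s
      (Real.log X ^ c) A B := by
    intro p hp
    rw [mem_biUnion] at hp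
    obtain ⟨z, hz, hpz⟩ := hp
    unfold apSet at hpz
    rw [mem_image] at hpz
    obtain ⟨m, hm, rfl⟩ := hpz
    rw [mem_range] at hm
    obtain ⟨q1, q2, q3⟩ := p1' z hz
    unfold InProg
    rw [mem_filter]
    refine ⟨(hgood _ (q3 m hm).1).1, z.1, z.2, q1, q2, ⟨m, hm, rfl⟩, fun i hi => ?_⟩
    refine ⟨(hgood _ (q3 i hi).1).1, (hgood _ (q3 i hi).1).2, ?_⟩
    rw [(q3 i hi).2, (q3 m hm).2]
  have hcard : ((GG.card : ℕ) : ℝ) ≤ ((Q.biUnion (apSet s)).card : ℝ) + ((GG \ Q.biUnion (apSet s)).card : ℝ) := by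
    have h1 : GG ⊆ Q.biUnion (apSet s) ∪ GG \ Q.biUnion (apSet s) := by
      intro x hx
      rw [mem_union, Finset.mem_sdiff]
      by_cases h : x ∈ Q.biUnion (apSet s)
      · exact Or.inl h
      · exact Or.inr ⟨hx, h⟩
    exact_mod_cast (card_le_card h1).trans (card_union_le _ _)
  have h9 : ((Q.biUnion (apSet s)).card : ℝ) ≤ ((InProg n t ((2 * a + 5) * t) X (ε * Real.log X) ((X : ℝ) ^ β) χ s
      (Real.log X ^ c) A B).card : ℝ) := by exact_mod_cast card_le_card hsub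
  have h10 : κ ^ 2 / 2 * (((B : ℝ) - A) / Real.log X ^ (4 * K + 2)) ≤ κ / 2 * ((B : ℝ) - A) * V := by
    have e1 : κ ^ 2 / 2 * (((B : ℝ) - A) / Real.log X ^ (4 * K + 2)) =
        κ / 2 * ((B : ℝ) - A) * (κ / Real.log X ^ (K + K + (K + K) + 1 + 1)) := by
      rw [show K + K + (K + K) + 1 + 1 = 4 * K + 2 by ring]
      ring
    rw [e1]
    exact mul_le_mul_of_nonneg_left hVlow (by positivity)
  linarith

end Pool.Agent.Results.MP_36c81c_nt.GoldbachOffsets
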