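import Pool.Agent.T6.H35.BO.Val

/-!
# Almost primes next to squares, closer than the totient, and polynomials modulo one

`slope K n` is the product of the primes `≤ 2 K` which do not divide `n`.  `Offsets n P c T z X` is the
set of the `1 ≤ h ≤ X` for which the fractional part of `P (h)` is smaller than `c` and for which all
the numbers `n_i ^ 2 + slope (n_i) h` and `n_i ^ 2 - slope (n_i) h` are products of at most `T` primes
larger than `z`.  `ManyOffsets K a t C δ X P`: for all `n_1, ..., n_K ≤ X ^ a` with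
`slope (n_i) X ≤ φ (n_i)` and all `X ^ (- δ) ≤ c ≤ 1` there are at least `c X / (log X) ^ C` such
offsets, with `T = (2 a + 1) t` and `z = X ^ (1 / t)`.  `sub K m F` is the polynomial
`F (m ^ 2 + slope (m) h)` of `h`.
-/

set_option autoImplicit false

namespace Pool.Agent.Results.MP_36c81c_nt.OffsetsInArcs

open Polynomial
open Pool.Agent.T6.H35.BO (ManyOffsets sub)

theorem result (K k : ℕ) (hk : 1 ≤ k) :
    (∀ τ : ℝ, 1 ≤ τ → ∃ t C : ℕ, 1 ≤ t ∧ ∃ δ : ℝ, 0 < δ ∧ ∀ (a : ℕ) (c₀ : ℝ), 0 < c₀ →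
      ∃ X₀ : ℕ, ∀ X : ℕ, X₀ ≤ X → ∀ F : ℝ[X], F.natDegree = k →
        (∀ d : ℕ, 1 ≤ d → ∀ b : ℤ, c₀ / (d : ℝ) ^ τ ≤ |d * F.leadingCoeff - b|) →
        ManyOffsets K a t C δ X F ∧ ∀ m : ℕ, ManyOffsets K a t C δ X (sub K m F)) ∧
    (∃ t C : ℕ, 1 ≤ t ∧ ∃ δ : ℝ, 0 < δ ∧ ∀ (a : ℕ) (α : ℝ), Irrational α → ∀ B : ℕ,
      ∃ X : ℕ, B ≤ X ∧ ∀ F : ℝ[X], F.natDegree = k → F.leadingCoeff = α →
        ManyOffsets K a t C δ X F) :=
  ⟨fun τ hτ => Pool.Agent.T6.H35.BO.off_val K k hk τ hτ, Pool.Agent.T6.H35.BO.off_irr K k hk⟩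

end Pool.Agent.Results.MP_36c81c_nt.OffsetsInArcs
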